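import Mathlib
import Pool.Agent.H807R3.Op2

set_option autoImplicit false
open MeasureTheory Metric Set Filter Topology Complex
open scoped ContDiff ENNReal ComplexConjugate

namespace Pool.Agent.H807R3

/-- test functions on `U` -/
def IsTest (U : Set E) (φ : E → ℂ) : Prop :=
  ContDiff ℝ ∞ φ ∧ HasCompactSupport φ ∧ tsupport φ ⊆ U

theorem IsTest.cc {U : Set E} {φ : E → ℂ} (h : IsTest U φ) : Cc φ := ⟨h.1, h.2.1⟩

theorem IsTest.add {U : Set E} {φ ψ : E → ℂ} (h : IsTest U φ) (h' : IsTest U ψ) : IsTest U (φ + ψ) :=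
  ⟨h.1.add h'.1, h.2.1.add h'.2.1, (tsupport_add _ _).trans (union_subset h.2.2 h'.2.2)⟩

theorem IsTest.smul {U : Set E} {φ : E → ℂ} (h : IsTest U φ) (a : ℂ) : IsTest U (a • φ) := by
  refine ⟨contDiff_const.smul h.1, h.2.1.smul_left (f := fun _ => a), ?_⟩
  exact (tsupport_smul_subset_right (fun _ => a) φ).trans h.2.2

theorem isTest_zero (U : Set E) : IsTest U (0 : E → ℂ) := by
  refine ⟨contDiff_const, HasCompactSupport.zero, ?_⟩
  have : tsupport (0 : E → ℂ) = ∅ := by simp [tsupport]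
  rw [this]; exact empty_subset _

def testSub (U : Set E) : Submodule ℂ (E → ℂ) where
  carrier := {φ | IsTest U φ}
  add_mem' := fun h h' => h.add h'
  zero_mem' := isTest_zero U
  smul_mem' := fun a _ h => h.smul a

theorem riesz (P : Set E) (L : (E → ℂ) → ℂ)
    (hadd : ∀ φ ψ, IsTest P φ → IsTest P ψ → L (φ + ψ) = L φ + L ψ)
    (hsmul : ∀ (a : ℂ) φ, IsTest P φ → L (a • φ) = a * L φ)
    (C : ℝ≥0∞) (hC : C ≠ ⊤)
    (hb : ∀ φ, IsTest P φ → ‖L φ‖ₑ ≤ C * eLpNorm φ 2 (volume.restrict P)) :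
    ∃ G : E → ℂ, MemLp G 2 (volume.restrict P) ∧
      ∀ φ, IsTest P φ → L φ = ∫ p in P, G p * φ p := by
  set μ := (volume : Measure E).restrict P with hμ
  have hm : ∀ φ : testSub P, MemLp (φ : E → ℂ) 2 μ := fun φ => (IsTest.cc φ.2).memLp.restrict P
  let j : testSub P →ₗ[ℂ] Lp ℂ 2 μ :=
    { toFun := fun φ => (hm φ).toLp
      map_add' := fun φ ψ => MemLp.toLp_add (hm φ) (hm ψ)
      map_smul' := fun a φ => MemLp.toLp_const_smul a (hm φ) }
  let L' : testSub P →ₗ[ℂ] ℂ :=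
    { toFun := fun φ => L φ
      map_add' := fun φ ψ => hadd _ _ φ.2 ψ.2
      map_smul' := fun a φ => hsmul a _ φ.2 }
  have hjn : ∀ φ : testSub P, ‖j φ‖ = (eLpNorm (φ : E → ℂ) 2 μ).toReal := fun φ => Lp.norm_toLp _ (hm φ)
  have hLb : ∀ φ : testSub P, ‖L' φ‖ ≤ C.toReal * ‖j φ‖ := by
    intro φ
    rw [hjn, ← ENNReal.toReal_mul]
    have := hb φ φ.2
    have h2 : ‖L' φ‖ = ‖L φ‖ₑ.toReal := by simp [L']
    rw [h2]
    exact ENNReal.toReal_mono (ENNReal.mul_ne_top hC (hm φ).2.ne) this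
  have hker : LinearMap.ker j ≤ LinearMap.ker L' := by
    intro φ hφ
    rw [LinearMap.mem_ker] at hφ ⊢
    have := hLb φ
    rw [hφ, norm_zero, mul_zero] at this
    exact norm_le_zero_iff.1 this
  let f₀ : LinearMap.range j →ₗ[ℂ] ℂ :=
    ((LinearMap.ker j).liftQ L' hker).comp (j.quotKerEquivRange.symm : LinearMap.range j →ₗ[ℂ] _)
  have hf₀ : ∀ φ : testSub P, f₀ ⟨j φ, LinearMap.mem_range_self j φ⟩ = L' φ := by
    intro φ
    show ((LinearMap.ker j).liftQ L' hker) (j.quotKerEquivRange.symm ⟨j φ, _⟩) = L' φ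
    rw [LinearMap.quotKerEquivRange_symm_apply_image j φ (LinearMap.mem_range_self j φ)]
    simp
  let f : LinearMap.range j →L[ℂ] ℂ := f₀.mkContinuous C.toReal (by
    rintro ⟨_, φ, rfl⟩
    rw [hf₀ φ]
    exact hLb φ)
  obtain ⟨g, hg, -⟩ := exists_extension_norm_eq (LinearMap.range j) f
  set y := (InnerProductSpace.toDual ℂ (Lp ℂ 2 μ)).symm g with hy
  refine ⟨fun p => conj (y p), ?_, ?_⟩
  · have h1 : MemLp (y : E → ℂ) 2 μ := Lp.memLp y
    exact h1.star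
  · intro φ hφ
    have h1 : L φ = g (j ⟨φ, hφ⟩) := by
      have := hg ⟨j ⟨φ, hφ⟩, LinearMap.mem_range_self j _⟩
      rw [this]
      exact (hf₀ ⟨φ, hφ⟩).symm
    rw [h1, ← InnerProductSpace.toDual_symm_apply, ← hy, L2.inner_def]
    apply integral_congr_ae
    have h2 : (j ⟨φ, hφ⟩ : E → ℂ) =ᵐ[μ] φ := MemLp.coeFn_toLp (hm ⟨φ, hφ⟩)
    filter_upwards [h2] with p hp
    rw [hp]
    simp [mul_comm]

theorem cs_enorm {μ : Measure E} {F g : E → ℂ} (hF : AEStronglyMeasurable F μ) (hg : AEStronglyMeasurable g μ) :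
    ‖∫ p, F p * g p ∂μ‖ₑ ≤ eLpNorm F 2 μ * eLpNorm g 2 μ := by
  have h1 := eLpNorm_smul_le_mul_eLpNorm (p := 2) (q := 2) (r := 1) hg hF
  refine (enorm_integral_le_lintegral_enorm _).trans ?_
  rw [eLpNorm_one_eq_lintegral_enorm] at h1
  exact h1

/-- bounded operators on test functions -/
structure Bdd (P : Set E) (T : (E → ℂ) → (E → ℂ)) : Prop where
  add : ∀ φ ψ, IsTest P φ → IsTest P ψ → ∀ p ∈ P, T (φ + ψ) p = T φ p + T ψ p
  smul : ∀ (a : ℂ) φ, IsTest P φ → ∀ p ∈ P, T (a • φ) p = a * T φ p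
  meas : ∀ φ, IsTest P φ → AEStronglyMeasurable (T φ) (volume.restrict P)
  bound : ∃ C : ℝ≥0∞, C ≠ ⊤ ∧ ∀ φ, IsTest P φ →
    eLpNorm (T φ) 2 (volume.restrict P) ≤ C * eLpNorm φ 2 (volume.restrict P)

theorem Bdd.memLp {P : Set E} {T : (E → ℂ) → (E → ℂ)} (hT : Bdd P T) {φ : E → ℂ} (hφ : IsTest P φ) :
    MemLp (T φ) 2 (volume.restrict P) := by
  obtain ⟨C, hC, hb⟩ := hT.bound
  exact ⟨hT.meas φ hφ, (hb φ hφ).trans_lt (ENNReal.mul_lt_top hC.lt_top (hφ.cc.memLp.restrict P).2)⟩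

theorem Bdd.rep {P : Set E} (hP : MeasurableSet P) {T : (E → ℂ) → (E → ℂ)} (hT : Bdd P T) {F : E → ℂ}
    (hF : MemLp F 2 (volume.restrict P)) :
    ∃ G : E → ℂ, MemLp G 2 (volume.restrict P) ∧
      ∀ φ, IsTest P φ → ∫ p in P, F p * T φ p = ∫ p in P, G p * φ p := by
  obtain ⟨C, hC, hb⟩ := hT.bound
  refine riesz P (fun φ => ∫ p in P, F p * T φ p) ?_ ?_ (eLpNorm F 2 (volume.restrict P) * C)
    (ENNReal.mul_ne_top hF.2.ne hC) ?_
  · intro φ ψ hφ hψ
    have i1 := hF.integrable_mul (hT.memLp hφ)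
    have i2 := hF.integrable_mul (hT.memLp hψ)
    have : ∫ p in P, F p * T (φ + ψ) p = ∫ p in P, (F p * T φ p + F p * T ψ p) := by
      apply setIntegral_congr_fun hP
      intro p hp
      show F p * T (φ + ψ) p = _
      rw [hT.add φ ψ hφ hψ p hp]; ring
    rw [this]
    exact integral_add i1 i2
  · intro a φ hφ
    rw [← integral_const_mul]
    apply setIntegral_congr_fun hP
    intro p hp
    show F p * T (a • φ) p = a * (F p * T φ p)
    rw [hT.smul a φ hφ p hp]; ring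
  · intro φ hφ
    refine (cs_enorm hF.1 (hT.meas φ hφ)).trans ?_
    rw [mul_assoc]
    gcongr
    exact hb φ hφ

end Pool.Agent.H807R3
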