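import Mathlib
import Pool.Agent.H807R3.Solve

set_option autoImplicit false
open MeasureTheory Metric Set Filter Topology Complex
open scoped ContDiff ENNReal ComplexConjugate

namespace Pool.Agent.H807R3

theorem S_add' {g h : E → ℂ} (hg : Cc g) (hh : Cc h) (ι : ℂ →L[ℝ] E) :
    S ι (g + h) = S ι g + S ι h := funext fun p => S_add hg hh ι p

theorem S_smul' (g : E → ℂ) (a : ℂ) (ι : ℂ →L[ℝ] E) : S ι (a • g) = a • S ι g :=
  funext fun p => S_smul g a ι p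

theorem D_add' {g h : E → ℂ} (hg : Cc g) (hh : Cc h) (ι : ℂ →L[ℝ] E) (c : ℂ) :
    D ι c (g + h) = D ι c g + D ι c h := by
  funext p
  unfold D
  rw [fderiv_add (hg.1.differentiable (by simp) p) (hh.1.differentiable (by simp) p)]
  simp only [Pi.add_apply, add_apply]
  ring

theorem D_smul' {g : E → ℂ} (hg : Cc g) (a : ℂ) (ι : ℂ →L[ℝ] E) (c : ℂ) :
    D ι c (a • g) = a • D ι c g := by
  funext p
  unfold D
  rw [fderiv_const_smul (hg.1.differentiable (by simp) p)]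
  simp only [Pi.smul_apply, smul_apply, smul_eq_mul]
  ring

theorem D_S' {g : E → ℂ} (hg : Cc g) (ι ι' : ℂ →L[ℝ] E) (c : ℂ) :
    D ι' c (S ι g) = S ι (D ι' c g) := funext fun p => D_S hg ι ι' c p

theorem Cc.S1 {g : E → ℂ} (hg : Cc g) : Cc (Pool.Agent.H807R3.S i1 g) := hg.S i1 q1 q1_i1
theorem Cc.S2 {g : E → ℂ} (hg : Cc g) : Cc (Pool.Agent.H807R3.S i2 g) := hg.S i2 q2 q2_i2

theorem IsTest.eLpNorm_eq {U : Set E} {φ : E → ℂ} (h : IsTest U φ) :
    eLpNorm φ 2 (volume.restrict U) = eLpNorm φ 2 volume :=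
  eLpNorm_restrict_eq_of_support_subset ((subset_tsupport φ).trans h.2.2)

/-- points of tsupport of `S i2 g` have their first coordinate among those of `tsupport g`. -/
theorem tsupport_S2 {g : E → ℂ} (hg : Cc g) {p : E} (hp : p ∈ tsupport (S i2 g)) :
    ∃ q ∈ tsupport g, q.1 = p.1 := by
  have hK : IsClosed ((fun q : E => q.1) '' tsupport g) :=
    ((hg.2.isCompact).image continuous_fst).isClosed
  have hcl : IsClosed {p : E | p.1 ∈ (fun q : E => q.1) '' tsupport g} := hK.preimage continuous_fst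
  have hsub : tsupport (S i2 g) ⊆ {p : E | p.1 ∈ (fun q : E => q.1) '' tsupport g} := by
    apply closure_minimal _ hcl
    intro p hp
    by_contra hn
    apply hp
    apply S_eq_zero i2 (A := tsupport g) (fun q hq => subset_tsupport _ hq)
    intro x hx
    apply hn
    exact ⟨p - i2 x, hx, by simp [i2_apply]⟩
  obtain ⟨q, hq, hq2⟩ := hsub hp
  exact ⟨q, hq, hq2⟩

theorem tsupport_S1 {g : E → ℂ} (hg : Cc g) {p : E} (hp : p ∈ tsupport (S i1 g)) :
    ∃ q ∈ tsupport g, q.2 = p.2 := by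
  have hK : IsClosed ((fun q : E => q.2) '' tsupport g) :=
    ((hg.2.isCompact).image continuous_snd).isClosed
  have hcl : IsClosed {p : E | p.2 ∈ (fun q : E => q.2) '' tsupport g} := hK.preimage continuous_snd
  have hsub : tsupport (S i1 g) ⊆ {p : E | p.2 ∈ (fun q : E => q.2) '' tsupport g} := by
    apply closure_minimal _ hcl
    intro p hp
    by_contra hn
    apply hp
    apply S_eq_zero i1 (A := tsupport g) (fun q hq => subset_tsupport _ hq)
    intro x hx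
    apply hn
    exact ⟨p - i1 x, hx, by simp [i1_apply]⟩
  obtain ⟨q, hq, hq2⟩ := hsub hp
  exact ⟨q, hq, hq2⟩

theorem IsTest.s1 {φ : E → ℂ} (h : IsTest P φ) (p : E) (hp : φ p ≠ 0) : ‖q1 p‖ < 1 :=
  (h.2.2 (subset_tsupport _ hp)).1
theorem IsTest.s2 {φ : E → ℂ} (h : IsTest P φ) (p : E) (hp : φ p ≠ 0) : ‖q2 p‖ < 1 :=
  (h.2.2 (subset_tsupport _ hp)).2.2

theorem S2_s1 {φ : E → ℂ} (h : IsTest P φ) (p : E) (hp : S i2 φ p ≠ 0) : ‖q1 p‖ < 1 := by
  obtain ⟨q, hq, hq1⟩ := tsupport_S2 h.cc (subset_tsupport _ hp)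
  rw [q1_apply, ← hq1]
  exact (h.2.2 hq).1

theorem restrict_le (A : Set E) (h : P ⊆ A) (f : E → ℂ) :
    eLpNorm f 2 (volume.restrict P) ≤ eLpNorm f 2 (volume.restrict A) :=
  eLpNorm_mono_measure f (Measure.restrict_mono h le_rfl)

theorem bdd_S1 : Bdd P (S i1) where
  add := fun φ ψ hφ hψ p _ => by rw [S_add' hφ.cc hψ.cc]; rfl
  smul := fun a φ hφ p _ => by rw [S_smul']; rfl
  meas := fun φ hφ => hφ.cc.S1.1.continuous.aestronglyMeasurable
  bound := ⟨MK, MK_ne_top, fun φ hφ => by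
    rw [hφ.eLpNorm_eq]
    exact (eLpNorm_restrict_le _ _ _ _).trans (eLpNorm_S φ hφ.1.continuous.measurable i1)⟩

theorem bdd_S2 : Bdd P (S i2) where
  add := fun φ ψ hφ hψ p _ => by rw [S_add' hφ.cc hψ.cc]; rfl
  smul := fun a φ hφ p _ => by rw [S_smul']; rfl
  meas := fun φ hφ => hφ.cc.S2.1.continuous.aestronglyMeasurable
  bound := ⟨MK, MK_ne_top, fun φ hφ => by
    rw [hφ.eLpNorm_eq]
    exact (eLpNorm_restrict_le _ _ _ _).trans (eLpNorm_S φ hφ.1.continuous.measurable i2)⟩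

theorem bdd_S12 : Bdd P (fun φ => S i1 (S i2 φ)) where
  add := fun φ ψ hφ hψ p _ => by
    simp only [S_add' hφ.cc hψ.cc, S_add' hφ.cc.S2 hψ.cc.S2]; rfl
  smul := fun a φ hφ p _ => by simp only [S_smul']; rfl
  meas := fun φ hφ => hφ.cc.S2.S1.1.continuous.aestronglyMeasurable
  bound := ⟨MK * MK, ENNReal.mul_ne_top MK_ne_top MK_ne_top, fun φ hφ => by
    rw [hφ.eLpNorm_eq, mul_assoc]
    refine (eLpNorm_restrict_le _ _ _ _).trans ((eLpNorm_S _ hφ.cc.S2.1.continuous.measurable i1).trans ?_)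
    gcongr
    exact eLpNorm_S φ hφ.1.continuous.measurable i2⟩

theorem bdd_B1 : Bdd P (fun φ => S i1 (D i1 (-1) φ)) where
  add := fun φ ψ hφ hψ p _ => by
    simp only [D_add' hφ.cc hψ.cc, S_add' (hφ.cc.D _ _) (hψ.cc.D _ _)]; rfl
  smul := fun a φ hφ p _ => by simp only [D_smul' hφ.cc, S_smul']; rfl
  meas := fun φ hφ => (hφ.cc.D _ _).S1.1.continuous.aestronglyMeasurable
  bound := by
    obtain ⟨C, hC, hb⟩ := beurling i1 q1 q1_i1
    refine ⟨C, hC, fun φ hφ => ?_⟩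
    rw [hφ.eLpNorm_eq]
    exact (restrict_le _ (fun p hp => hp.1) _).trans (hb φ hφ.cc hφ.s1)

theorem bdd_B2 : Bdd P (fun φ => S i2 (D i2 (-1) φ)) where
  add := fun φ ψ hφ hψ p _ => by
    simp only [D_add' hφ.cc hψ.cc, S_add' (hφ.cc.D _ _) (hψ.cc.D _ _)]; rfl
  smul := fun a φ hφ p _ => by simp only [D_smul' hφ.cc, S_smul']; rfl
  meas := fun φ hφ => (hφ.cc.D _ _).S2.1.continuous.aestronglyMeasurable
  bound := by
    obtain ⟨C, hC, hb⟩ := beurling i2 q2 q2_i2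
    refine ⟨C, hC, fun φ hφ => ?_⟩
    rw [hφ.eLpNorm_eq]
    exact (restrict_le _ (fun p hp => hp.2.2) _).trans (hb φ hφ.cc hφ.s2)

theorem bdd_B12 : Bdd P (fun φ => S i1 (D i1 (-1) (S i2 φ))) where
  add := fun φ ψ hφ hψ p _ => by
    simp only [S_add' hφ.cc hψ.cc, D_add' hφ.cc.S2 hψ.cc.S2,
      S_add' (hφ.cc.S2.D _ _) (hψ.cc.S2.D _ _)]; rfl
  smul := fun a φ hφ p _ => by simp only [S_smul', D_smul' hφ.cc.S2]; rfl
  meas := fun φ hφ => (hφ.cc.S2.D _ _).S1.1.continuous.aestronglyMeasurable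
  bound := by
    obtain ⟨C, hC, hb⟩ := beurling i1 q1 q1_i1
    refine ⟨C * MK, ENNReal.mul_ne_top hC MK_ne_top, fun φ hφ => ?_⟩
    rw [hφ.eLpNorm_eq, mul_assoc]
    refine (restrict_le _ (fun p hp => hp.1) _).trans ((hb _ hφ.cc.S2 (S2_s1 hφ)).trans ?_)
    gcongr
    exact eLpNorm_S φ hφ.1.continuous.measurable i2

theorem bdd_B21 : Bdd P (fun φ => S i1 (S i2 (D i2 (-1) φ))) where
  add := fun φ ψ hφ hψ p _ => by
    simp only [D_add' hφ.cc hψ.cc, S_add' (hφ.cc.D _ _) (hψ.cc.D _ _),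
      S_add' (hφ.cc.D _ _).S2 (hψ.cc.D _ _).S2]; rfl
  smul := fun a φ hφ p _ => by simp only [D_smul' hφ.cc, S_smul']; rfl
  meas := fun φ hφ => (hφ.cc.D _ _).S2.S1.1.continuous.aestronglyMeasurable
  bound := by
    obtain ⟨C, hC, hb⟩ := beurling i2 q2 q2_i2
    refine ⟨MK * C, ENNReal.mul_ne_top MK_ne_top hC, fun φ hφ => ?_⟩
    rw [hφ.eLpNorm_eq, mul_assoc]
    have hms : MeasurableSet {p : E | ‖q2 p‖ < 1} :=
      (isOpen_lt (by fun_prop) continuous_const).measurableSet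
    refine (restrict_le {p : E | ‖q2 p‖ < 1} (fun p hp => hp.2.2) _).trans
      ((eLpNorm_S_restrict _ (hφ.cc.D _ _).S2.1.continuous.measurable i1 hms ?_).trans ?_)
    · intro p x
      simp only [mem_setOf_eq, map_sub, q2_i1, sub_zero]
    · gcongr
      exact hb φ hφ.cc hφ.s2

theorem solveP {F1 F2 K X Y : E → ℂ}
    (h1 : MemLp F1 2 (volume.restrict P)) (h2 : MemLp F2 2 (volume.restrict P))
    (hK : MemLp K 2 (volume.restrict P)) (hX : MemLp X 2 (volume.restrict P))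
    (hY : MemLp Y 2 (volume.restrict P))
    (w1 : WD P i2 1 F1 K) (w2 : WD P i1 1 F2 K) (wX : WD P i1 (-1) F2 X) (wY : WD P i2 (-1) F1 Y) :
    ∃ U X' Y' : E → ℂ, MemLp U 2 (volume.restrict P) ∧ MemLp X' 2 (volume.restrict P) ∧
      MemLp Y' 2 (volume.restrict P) ∧ WD P i1 1 U F1 ∧ WD P i2 1 U F2 ∧
      WD P i1 (-1) U X' ∧ WD P i2 (-1) U Y' := by
  have hPm := isOpen_P.measurableSet
  obtain ⟨U1, hU1, r1⟩ := bdd_S1.rep hPm h1
  obtain ⟨U2, hU2, r2⟩ := bdd_S2.rep hPm h2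
  obtain ⟨U3, hU3, r3⟩ := bdd_S12.rep hPm hK
  obtain ⟨V1, hV1, s1⟩ := bdd_B1.rep hPm h1
  obtain ⟨V2, hV2, s2⟩ := bdd_S2.rep hPm hX
  obtain ⟨V3, hV3, s3⟩ := bdd_B12.rep hPm hK
  obtain ⟨Z1, hZ1, t1⟩ := bdd_S1.rep hPm hY
  obtain ⟨Z2, hZ2, t2⟩ := bdd_B2.rep hPm h2
  obtain ⟨Z3, hZ3, t3⟩ := bdd_B21.rep hPm hK
  have int : ∀ {A φ : E → ℂ}, MemLp A 2 (volume.restrict P) → IsTest P φ →
      Integrable (fun p => A p * φ p) (volume.restrict P) :=
    fun hA hφ => hA.integrable_mul (hφ.cc.memLp.restrict P)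
  have comb : ∀ {A B C φ : E → ℂ} (a b c : ℂ), MemLp A 2 (volume.restrict P) →
      MemLp B 2 (volume.restrict P) → MemLp C 2 (volume.restrict P) → IsTest P φ →
      ∫ p in P, (a * A p + b * B p + c * C p) * φ p =
        a * (∫ p in P, A p * φ p) + b * (∫ p in P, B p * φ p) + c * (∫ p in P, C p * φ p) := by
    intro A B C φ a b c hA hB hC hφ
    have i12 : Integrable (fun p => a * (A p * φ p) + b * (B p * φ p)) (volume.restrict P) :=
      ((int hA hφ).const_mul a).add ((int hB hφ).const_mul b)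
    rw [← integral_const_mul, ← integral_const_mul, ← integral_const_mul,
      ← integral_add ((int hA hφ).const_mul a) ((int hB hφ).const_mul b),
      ← integral_add i12 ((int hC hφ).const_mul c)]
    congr 1
    funext p
    ring
  have hmem : ∀ {A B C : E → ℂ} (a b c : ℂ), MemLp A 2 (volume.restrict P) →
      MemLp B 2 (volume.restrict P) → MemLp C 2 (volume.restrict P) →
      MemLp (fun p => a * A p + b * B p + c * C p) 2 (volume.restrict P) :=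
    fun a b c hA hB hC => ((hA.const_mul a).add (hB.const_mul b)).add (hC.const_mul c)
  refine ⟨fun p => (-1) * U1 p + (-1) * U2 p + (-1) * U3 p,
    fun p => 1 * V1 p + (-1) * V2 p + 1 * V3 p,
    fun p => (-1) * Z1 p + 1 * Z2 p + 1 * Z3 p,
    hmem _ _ _ hU1 hU2 hU3, hmem _ _ _ hV1 hV2 hV3, hmem _ _ _ hZ1 hZ2 hZ3, ?_, ?_, ?_, ?_⟩
  · intro φ hφ
    have hD := hφ.D i1 1
    rw [comb _ _ _ hU1 hU2 hU3 hD, ← r1 _ hD, ← r2 _ hD, ← r3 _ hD]
    have e1 : ∫ p in P, F1 p * S i1 (D i1 1 φ) p = ∫ p in P, F1 p * φ p := by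
      apply setIntegral_congr_fun hPm
      intro p hp
      show F1 p * S i1 (D i1 1 φ) p = F1 p * φ p
      rw [S_D hφ.cc i1 q1 q1_i1 hφ.s1]
      have := hp.1; rw [q1_apply]; linarith
    have e2 : ∫ p in P, F2 p * S i2 (D i1 1 φ) p = - ∫ p in P, K p * S i2 φ p := by
      rw [← D_S' hφ.cc]
      apply w2.ext1 h2 hK hφ.cc.S2
      intro p hp
      obtain ⟨q, hq, hq1⟩ := tsupport_S2 hφ.cc hp
      rw [← hq1]; exact (hφ.2.2 hq).1
    have e3 : ∫ p in P, K p * S i1 (S i2 (D i1 1 φ)) p = ∫ p in P, K p * S i2 φ p := by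
      apply setIntegral_congr_fun hPm
      intro p hp
      show K p * S i1 (S i2 (D i1 1 φ)) p = K p * S i2 φ p
      rw [← D_S' hφ.cc, S_D hφ.cc.S2 i1 q1 q1_i1 (S2_s1 hφ)]
      have := hp.1; rw [q1_apply]; linarith
    rw [e1, e2, e3]; ring
  · intro φ hφ
    have hD := hφ.D i2 1
    rw [comb _ _ _ hU1 hU2 hU3 hD, ← r1 _ hD, ← r2 _ hD, ← r3 _ hD]
    have e1 : ∫ p in P, F1 p * S i1 (D i2 1 φ) p = - ∫ p in P, K p * S i1 φ p := by
      rw [← D_S' hφ.cc]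
      apply w1.ext2 h1 hK hφ.cc.S1
      intro p hp
      obtain ⟨q, hq, hq1⟩ := tsupport_S1 hφ.cc hp
      rw [← hq1]; exact (hφ.2.2 hq).2
    have e2 : ∫ p in P, F2 p * S i2 (D i2 1 φ) p = ∫ p in P, F2 p * φ p := by
      apply setIntegral_congr_fun hPm
      intro p hp
      show F2 p * S i2 (D i2 1 φ) p = F2 p * φ p
      rw [S_D hφ.cc i2 q2 q2_i2 hφ.s2]
      have := hp.2.2; rw [q2_apply]; linarith
    have e3 : ∫ p in P, K p * S i1 (S i2 (D i2 1 φ)) p = ∫ p in P, K p * S i1 φ p := by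
      apply setIntegral_congr_fun hPm
      intro p hp
      show K p * S i1 (S i2 (D i2 1 φ)) p = K p * S i1 φ p
      congr 1
      show ∫ x, ker x * S i2 (D i2 1 φ) (p - i1 x) = ∫ x, ker x * φ (p - i1 x)
      congr 1
      funext x
      rw [S_D hφ.cc i2 q2 q2_i2 hφ.s2]
      have := hp.2.2
      rw [map_sub, q2_i1, sub_zero, q2_apply]; linarith
    rw [e1, e2, e3]; ring
  · intro φ hφ
    have hD := hφ.D i1 (-1)
    rw [comb _ _ _ hU1 hU2 hU3 hD, comb _ _ _ hV1 hV2 hV3 hφ, ← r1 _ hD, ← r2 _ hD, ← r3 _ hD,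
      ← s1 _ hφ, ← s2 _ hφ, ← s3 _ hφ]
    have e2 : ∫ p in P, F2 p * S i2 (D i1 (-1) φ) p = - ∫ p in P, X p * S i2 φ p := by
      rw [← D_S' hφ.cc]
      apply wX.ext1 h2 hX hφ.cc.S2
      intro p hp
      obtain ⟨q, hq, hq1⟩ := tsupport_S2 hφ.cc hp
      rw [← hq1]; exact (hφ.2.2 hq).1
    rw [e2, D_S' hφ.cc]; ring
  · intro φ hφ
    have hD := hφ.D i2 (-1)
    rw [comb _ _ _ hU1 hU2 hU3 hD, comb _ _ _ hZ1 hZ2 hZ3 hφ, ← r1 _ hD, ← r2 _ hD, ← r3 _ hD,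
      ← t1 _ hφ, ← t2 _ hφ, ← t3 _ hφ]
    have e1 : ∫ p in P, F1 p * S i1 (D i2 (-1) φ) p = - ∫ p in P, Y p * S i1 φ p := by
      rw [← D_S' hφ.cc]
      apply wY.ext2 h1 hY hφ.cc.S1
      intro p hp
      obtain ⟨q, hq, hq1⟩ := tsupport_S1 hφ.cc hp
      rw [← hq1]; exact (hφ.2.2 hq).2
    rw [e1]; ring

end Pool.Agent.H807R3
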