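import Mathlib
import Pool.Agent.H807R3.Hardy

set_option autoImplicit false
open MeasureTheory Metric Set Filter Topology Complex
open scoped ContDiff ENNReal ComplexConjugate

namespace Pool.Agent.H807R3

theorem IsTest.mulOn {U : Set E} {φ m : E → ℂ} (h : IsTest U φ)
    (hm : ∀ p ∈ U, ContDiffAt ℝ ∞ m p) : IsTest U (fun p => m p * φ p) := by
  refine ⟨?_, h.2.1.mul_left, ?_⟩
  · rw [contDiff_iff_contDiffAt]
    intro p
    by_cases hp : p ∈ tsupport φ
    · exact (hm p (h.2.2 hp)).mul h.1.contDiffAt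
    · have hev : (fun p => m p * φ p) =ᶠ[𝓝 p] fun _ => 0 := by
        have := (notMem_tsupport_iff_eventuallyEq.1 hp)
        filter_upwards [this] with q hq
        rw [hq]; simp
      exact contDiffAt_const.congr_of_eventuallyEq hev
  · exact (tsupport_mul_subset_right).trans h.2.2

theorem IsTest.mul {U : Set E} {φ m : E → ℂ} (h : IsTest U φ)
    (hm : ContDiff ℝ ∞ m) : IsTest U (fun p => m p * φ p) := h.mulOn (fun _ _ => hm.contDiffAt)

theorem bdd_Hd : Bdd P Hd where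
  add := fun φ ψ hφ hψ p _ => by
    have c1 : Continuous (fun t : ℝ => (t:ℂ) * φ (p.1, (t:ℂ) * p.2)) := by
      have := hφ.1.continuous
      fun_prop
    have c2 : Continuous (fun t : ℝ => (t:ℂ) * ψ (p.1, (t:ℂ) * p.2)) := by
      have := hψ.1.continuous
      fun_prop
    unfold Hd
    rw [← intervalIntegral.integral_add (c1.intervalIntegrable _ _) (c2.intervalIntegrable _ _)]
    congr 1
    funext t
    simp only [Pi.add_apply]
    ring
  smul := fun a φ hφ p _ => by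
    unfold Hd
    rw [← intervalIntegral.integral_const_mul]
    congr 1
    funext t
    simp only [Pi.smul_apply, smul_eq_mul]
    ring
  meas := fun φ hφ => (Hd_smooth hφ.1).continuous.aestronglyMeasurable
  bound := ⟨1, ENNReal.one_ne_top, fun φ hφ => by
    rw [hφ.eLpNorm_eq, one_mul]
    exact (eLpNorm_restrict_le _ _ _ _).trans (Hd_bound φ hφ.1.continuous)⟩

/-- `F` measurable on `P`, with `w F ∈ L²(P)` -/
def WL (F : E → ℂ) : Prop :=
  AEStronglyMeasurable F (volume.restrict P) ∧ MemLp (fun p => p.2 * F p) 2 (volume.restrict P)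

theorem WL.mul {F : E → ℂ} (h : WL F) {m : E → ℂ} (hm : AEStronglyMeasurable m (volume.restrict P))
    (C : ℝ) (hC : ∀ p ∈ P, ‖m p‖ ≤ C * ‖p.2‖) : MemLp (fun p => m p * F p) 2 (volume.restrict P) := by
  refine MemLp.of_le_mul (c := C) h.2 (hm.mul h.1) ?_
  filter_upwards [ae_restrict_mem isOpen_P.measurableSet] with p hp
  rw [norm_mul, norm_mul]
  have := hC p hp
  calc ‖m p‖ * ‖F p‖ ≤ (C * ‖p.2‖) * ‖F p‖ := mul_le_mul_of_nonneg_right this (norm_nonneg _)
    _ = _ := by ring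

theorem ne_of_P {p : E} (hp : p ∈ P) : p.2 ≠ 0 := norm_pos_iff.1 hp.2.1

theorem WL.int {F : E → ℂ} (h : WL F) {θ : E → ℂ} (hθ : IsTest P θ) :
    Integrable (fun p => F p * θ p) (volume.restrict P) := by
  have h1 : IsTest P (fun p => (p.2)⁻¹ * θ p) := by
    apply hθ.mulOn (m := fun p => (p.2)⁻¹)
    intro p hp
    exact contDiffAt_snd.inv (ne_of_P hp)
  have h2 : Integrable (fun p => (p.2 * F p) * ((p.2)⁻¹ * θ p)) (volume.restrict P) :=
    h.2.integrable_mul (h1.cc.memLp.restrict P)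
  apply h2.congr
  filter_upwards [ae_restrict_mem isOpen_P.measurableSet] with p hp
  have := ne_of_P hp
  field_simp

theorem D_snd (c : ℂ) (p : E) : D i2 c (fun q => q.2) p = (1 - c) / 2 := by
  have h1 : HasFDerivAt (fun q : E => q.2) q2 p := q2.hasFDerivAt
  unfold D
  rw [h1.fderiv, q2_i2, q2_i2]
  have := I_mul_I
  linear_combination (c / 2) * this

theorem D_conj_snd (c : ℂ) (p : E) : D i2 c (fun q => conj q.2) p = (1 + c) / 2 := by
  have h1 : HasFDerivAt (fun q : E => conj q.2) ((Complex.conjCLE : ℂ →L[ℝ] ℂ).comp q2) p :=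
    ((Complex.conjCLE : ℂ →L[ℝ] ℂ).comp q2).hasFDerivAt
  unfold D
  rw [h1.fderiv]
  simp only [ContinuousLinearMap.comp_apply, q2_i2]
  have e1 : (Complex.conjCLE : ℂ →L[ℝ] ℂ) 1 = 1 := by simp
  have e2 : (Complex.conjCLE : ℂ →L[ℝ] ℂ) I = -I := by simp
  rw [e1, e2]
  have := I_mul_I
  linear_combination (-c / 2) * this

theorem fderiv_snd_dir (g : E → ℂ) (p : E) (w : ℂ) :
    fderiv ℝ g p (0, w) = w.re * fderiv ℝ g p (i2 1) + w.im * fderiv ℝ g p (i2 I) := by
  have : ((0, w) : E) = w.re • i2 1 + w.im • i2 I := by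
    rw [i2_apply, i2_apply]
    apply Prod.ext
    · simp
    · apply Complex.ext <;> simp
  rw [this, map_add, map_smul, map_smul, Complex.real_smul, Complex.real_smul]

theorem euler_id {g : E → ℂ} {p : E} (hg : DifferentiableAt ℝ g p) :
    D i2 (-1) (fun q => q.2 * g q) p + D i2 1 (fun q => conj q.2 * g q) p =
      2 * g p + fderiv ℝ g p (0, p.2) := by
  have d1 : DifferentiableAt ℝ (fun q : E => q.2) p := differentiableAt_snd
  have d2 : DifferentiableAt ℝ (fun q : E => conj q.2) p :=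
    ((Complex.conjCLE : ℂ →L[ℝ] ℂ).comp q2).differentiableAt
  rw [D_mul d1 hg, D_mul d2 hg, D_snd, D_conj_snd, fderiv_snd_dir]
  unfold D
  set a := fderiv ℝ g p (i2 1)
  set b := fderiv ℝ g p (i2 I)
  have h1 : p.2 = p.2.re + p.2.im * I := (Complex.re_add_im p.2).symm
  have h2 : conj p.2 = p.2.re - p.2.im * I := by
    apply Complex.ext <;> simp
  rw [h2]
  conv_lhs => rw [h1]
  have := I_mul_I
  simp only [Complex.add_re, Complex.ofReal_re, Complex.mul_re, Complex.I_re, Complex.ofReal_im,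
    Complex.I_im, Complex.add_im, Complex.mul_im]
  push_cast
  linear_combination (-(p.2.im : ℂ) * b) * this

theorem Hd_supp {ψ : E → ℂ} {p : E} (h : Hd ψ p ≠ 0) :
    ∃ t : ℝ, 0 < t ∧ t ≤ 1 ∧ ψ (p.1, (t:ℂ) * p.2) ≠ 0 := by
  by_contra hn
  push Not at hn
  apply h
  unfold Hd
  rw [intervalIntegral.integral_of_le (by norm_num)]
  rw [setIntegral_congr_fun measurableSet_Ioc (g := fun _ => (0:ℂ))]
  · simp
  · intro t ht
    simp only
    rw [hn t ht.1 ht.2, mul_zero]

theorem test_cut {ψ : E → ℂ} (hψ : IsTest P ψ) {χ : E → ℂ} (hχ : ContDiff ℝ ∞ χ)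
    (hχs : ∀ p, χ p ≠ 0 → ‖p.2‖ ≤ 3/4) : IsTest P (fun p => χ p * Hd ψ p) := by
  obtain ⟨R, hR⟩ : ∃ R : ℝ, ∀ q ∈ tsupport ψ, ‖(‖q.2‖⁻¹ : ℝ)‖ ≤ R := by
    apply hψ.2.1.isCompact.exists_bound_of_continuousOn (f := fun q : E => (‖q.2‖⁻¹ : ℝ))
    intro q hq
    have h0 : ‖q.2‖ ≠ 0 := (hψ.2.2 hq).2.1.ne'
    have : ContinuousAt (fun q : E => (‖q.2‖⁻¹ : ℝ)) q := by
      exact ContinuousAt.inv₀ (f := fun q : E => ‖q.2‖) (by fun_prop) h0
    exact this.continuousWithinAt
  set K : Set E := (fun z : E × ℝ => ((z.1.1, (z.2:ℂ) * z.1.2) : E)) '' (tsupport ψ ×ˢ Icc (1:ℝ) R) with hK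
  have hKc : IsCompact K := (hψ.2.1.isCompact.prod isCompact_Icc).image (by fun_prop)
  set K' : Set E := K ∩ {p : E | ‖p.2‖ ≤ 3/4} with hK'
  have hcl : IsClosed {p : E | ‖p.2‖ ≤ 3/4} := isClosed_le (by fun_prop) continuous_const
  have hK'c : IsCompact K' := hKc.inter_right hcl
  have hsub : Function.support (fun p => χ p * Hd ψ p) ⊆ K' := by
    intro p hp
    have h1 : χ p ≠ 0 := left_ne_zero_of_mul hp
    have h2 : Hd ψ p ≠ 0 := right_ne_zero_of_mul hp
    obtain ⟨t, ht0, ht1, hne⟩ := Hd_supp h2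
    have hmem : ((p.1, (t:ℂ) * p.2) : E) ∈ tsupport ψ := subset_tsupport _ hne
    have hp34 := hχs p h1
    refine ⟨⟨((p.1, (t:ℂ) * p.2), t⁻¹), ⟨hmem, ?_, ?_⟩, ?_⟩, hp34⟩
    · exact (one_le_inv₀ ht0).2 ht1
    · have h3 := hR _ hmem
      have h4 := (hψ.2.2 hmem).2.1
      simp only [norm_mul, Complex.norm_real, Real.norm_of_nonneg ht0.le] at h3 h4
      rw [norm_inv, norm_mul, norm_norm, Real.norm_of_nonneg ht0.le, mul_inv] at h3
      have h5 : 0 < ‖p.2‖ := pos_of_mul_pos_right h4 ht0.le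
      have h6 : 1 ≤ ‖p.2‖⁻¹ := (one_le_inv₀ h5).2 (by linarith)
      have h7 : 0 < t⁻¹ := inv_pos.2 ht0
      nlinarith
    · have : (t:ℂ) ≠ 0 := by exact_mod_cast ht0.ne'
      simp [this]
  have hts : tsupport (fun p => χ p * Hd ψ p) ⊆ K' := closure_minimal hsub hK'c.isClosed
  refine ⟨hχ.mul (Hd_smooth hψ.1), ?_, hts.trans ?_⟩
  · exact hK'c.of_isClosed_subset (isClosed_tsupport _) hts
  · rintro _ ⟨⟨⟨q, s⟩, ⟨hq, hs⟩, rfl⟩, h34⟩
    have h34' : ‖(s:ℂ) * q.2‖ ≤ 3/4 := h34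
    have hq' := hψ.2.2 hq
    have hs1 : 1 ≤ s := hs.1
    refine ⟨hq'.1, ?_, ?_⟩
    · show 0 < ‖(s:ℂ) * q.2‖
      rw [norm_mul, Complex.norm_real, Real.norm_of_nonneg (by linarith)]
      exact mul_pos (by linarith) hq'.2.1
    · show ‖(s:ℂ) * q.2‖ < 1
      linarith

/-- Hardy inequality, dual form. -/
theorem hardy {F V W : E → ℂ} (hF : WL F) (hV : WL V) (hW : WL W)
    (wV : WD P i2 (-1) F V) (wW : WD P i2 1 F W) :
    ∃ G : E → ℂ, MemLp G 2 (volume.restrict P) ∧
      ∀ φ, IsTest P φ → ∫ p in P, F p * φ p = ∫ p in P, G p * φ p := by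
  have hPm := isOpen_P.measurableSet
  let b : ContDiffBump (0 : ℂ) := ⟨1/2, 3/4, by norm_num, by norm_num⟩
  set β : ℂ → ℂ := fun z => ((b z : ℝ) : ℂ) with hβ
  have hβs : ContDiff ℝ ∞ β := Complex.ofRealCLM.contDiff.comp b.contDiff
  have hβc : HasCompactSupport β := b.hasCompactSupport.comp_left (g := fun x : ℝ => (x:ℂ)) (by simp)
  set χ : E → ℂ := fun p => β (q2 p) with hχ
  have hχs : ContDiff ℝ ∞ χ := hβs.comp q2.contDiff
  have hχ1 : ∀ p, ‖χ p‖ ≤ 1 := by
    intro p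
    simp only [hχ, hβ, Complex.norm_real, Real.norm_eq_abs]
    rw [abs_of_nonneg (b.nonneg)]
    exact b.le_one
  have hχ34 : ∀ p, χ p ≠ 0 → ‖p.2‖ ≤ 3/4 := by
    intro p hp
    by_contra hlt
    push Not at hlt
    apply hp
    simp only [hχ, hβ]
    rw [b.zero_of_le_dist]
    · simp
    · show (3/4:ℝ) ≤ dist (q2 p) 0
      rw [dist_zero_right, q2_apply]; exact hlt.le
  have hχ12 : ∀ p : E, ‖p.2‖ < 1/2 → χ =ᶠ[𝓝 p] fun _ => 1 := by
    intro p hp
    have hopen : IsOpen {q : E | ‖q.2‖ < 1/2} := isOpen_lt (by fun_prop) continuous_const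
    filter_upwards [hopen.mem_nhds hp] with q hq
    have hq' : ‖q.2‖ < 1/2 := hq
    simp only [hχ, hβ]
    rw [b.one_of_mem_closedBall]
    · simp
    · rw [mem_closedBall_zero_iff, q2_apply]; exact hq'.le
  set e : E → ℂ := fun p => fderiv ℝ χ p (0, p.2) with he
  have hec : Continuous e := by
    have := hχs.continuous_fderiv (by simp)
    simp only [he]
    fun_prop
  have hfβ : Continuous (fderiv ℝ β) := hβs.continuous_fderiv (by simp)
  obtain ⟨C, hC⟩ := (hβc.fderiv ℝ).exists_bound_of_continuous hfβ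
  have hC0 : 0 ≤ C := (norm_nonneg _).trans (hC 0)
  have hχd : ∀ p, fderiv ℝ χ p = (fderiv ℝ β (q2 p)).comp q2 := by
    intro p
    exact (((hβs.differentiable (by simp) _).hasFDerivAt).comp p q2.hasFDerivAt).fderiv
  have he1 : ∀ p ∈ P, ‖e p‖ ≤ (2 * C) * ‖p.2‖ := by
    intro p hp
    simp only [he]
    rw [hχd]
    have h1 : ‖((fderiv ℝ β (q2 p)).comp q2) (0, p.2)‖ ≤ C * ‖p.2‖ := by
      rw [ContinuousLinearMap.comp_apply]
      exact (ContinuousLinearMap.le_opNorm _ _).trans (mul_le_mul_of_nonneg_right (hC _) (norm_nonneg _))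
    have : 0 ≤ C * ‖p.2‖ := by positivity
    linarith
  have h1χ : ∀ p ∈ P, ‖1 - χ p‖ ≤ 4 * ‖p.2‖ := by
    intro p hp
    rcases lt_or_ge ‖p.2‖ (1/2) with h | h
    · rw [(hχ12 p h).eq_of_nhds]
      simp
    · have : ‖1 - χ p‖ ≤ 2 := by
        calc ‖1 - χ p‖ ≤ ‖(1:ℂ)‖ + ‖χ p‖ := norm_sub_le _ _
          _ ≤ 2 := by have := hχ1 p; rw [norm_one]; linarith
      linarith
  have m1 : MemLp (fun p => (p.2 * χ p) * V p) 2 (volume.restrict P) := by
    apply hV.mul (m := fun p => p.2 * χ p)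
      (continuous_snd.mul hχs.continuous).aestronglyMeasurable 1
    intro p _
    rw [norm_mul, one_mul]
    exact mul_le_of_le_one_right (norm_nonneg _) (hχ1 p)
  have m2 : MemLp (fun p => (conj p.2 * χ p) * W p) 2 (volume.restrict P) := by
    apply hW.mul (m := fun p => conj p.2 * χ p)
      ((Complex.continuous_conj.comp continuous_snd).mul hχs.continuous).aestronglyMeasurable 1
    intro p _
    rw [norm_mul, one_mul, Complex.norm_conj]
    exact mul_le_of_le_one_right (norm_nonneg _) (hχ1 p)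
  have m3 : MemLp (fun p => e p * F p) 2 (volume.restrict P) :=
    hF.mul hec.aestronglyMeasurable (2 * C) he1
  have m4 : MemLp (fun p => (1 - χ p) * F p) 2 (volume.restrict P) :=
    hF.mul (continuous_const.sub hχs.continuous).aestronglyMeasurable 4 h1χ
  set A : E → ℂ := fun p => (p.2 * χ p) * V p + (conj p.2 * χ p) * W p + e p * F p with hA
  have mA : MemLp A 2 (volume.restrict P) := (m1.add m2).add m3
  obtain ⟨G₁, hG₁, r⟩ := bdd_Hd.rep hPm mA
  refine ⟨fun p => (1 - χ p) * F p - G₁ p, m4.sub hG₁, ?_⟩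
  intro ψ hψ
  have hΦ : IsTest P (fun p => χ p * Hd ψ p) := test_cut hψ hχs hχ34
  have hcs : ContDiff ℝ ∞ (fun p : E => conj p.2) := ((Complex.conjCLE : ℂ →L[ℝ] ℂ).comp q2).contDiff
  have ha1 : IsTest P (fun p => p.2 * (χ p * Hd ψ p)) := hΦ.mul contDiff_snd
  have ha2 : IsTest P (fun p => conj p.2 * (χ p * Hd ψ p)) := hΦ.mul hcs
  have hw1 := wV _ ha1
  have hw2 := wW _ ha2
  have hχψ : IsTest P (fun p => χ p * ψ p) := hψ.mul hχs
  have hpt : ∀ p, D i2 (-1) (fun p => p.2 * (χ p * Hd ψ p)) p +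
      D i2 1 (fun p => conj p.2 * (χ p * Hd ψ p)) p = χ p * ψ p + e p * Hd ψ p := by
    intro p
    have hd1 : DifferentiableAt ℝ χ p := hχs.differentiable (by simp) p
    have hd2 : DifferentiableAt ℝ (Hd ψ) p := (Hd_smooth hψ.1).differentiable (by simp) p
    rw [euler_id (g := fun p => χ p * Hd ψ p) (hd1.mul hd2), fderiv_fun_mul hd1 hd2]
    simp only [add_apply, smul_apply, smul_eq_mul]
    have := Hd_euler hψ.1 p
    rw [← this]
    simp only [he]
    ring
  have iA : Integrable (fun p => A p * Hd ψ p) (volume.restrict P) := mA.integrable_mul (bdd_Hd.memLp hψ)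
  have i1' := hF.int (ha1.D i2 (-1))
  have i2' := hF.int (ha2.D i2 1)
  have i3 : Integrable (fun p => (e p * F p) * Hd ψ p) (volume.restrict P) := m3.integrable_mul (bdd_Hd.memLp hψ)
  have i4 : Integrable (fun p => ((p.2 * χ p) * V p) * Hd ψ p) (volume.restrict P) := m1.integrable_mul (bdd_Hd.memLp hψ)
  have i5 : Integrable (fun p => ((conj p.2 * χ p) * W p) * Hd ψ p) (volume.restrict P) := m2.integrable_mul (bdd_Hd.memLp hψ)
  have hkey : ∫ p in P, F p * (χ p * ψ p) = - ∫ p in P, A p * Hd ψ p := by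
    have e1 : ∫ p in P, F p * (χ p * ψ p) =
        (∫ p in P, F p * D i2 (-1) (fun p => p.2 * (χ p * Hd ψ p)) p) +
        (∫ p in P, F p * D i2 1 (fun p => conj p.2 * (χ p * Hd ψ p)) p) -
        ∫ p in P, (e p * F p) * Hd ψ p := by
      have i12 : Integrable (fun p => F p * D i2 (-1) (fun p => p.2 * (χ p * Hd ψ p)) p +
        F p * D i2 1 (fun p => conj p.2 * (χ p * Hd ψ p)) p) (volume.restrict P) := i1'.add i2'
      rw [← integral_add i1' i2', ← integral_sub i12 i3]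
      congr 1
      funext p
      have := hpt p
      linear_combination (-F p) * this
    have e2 : ∫ p in P, A p * Hd ψ p =
        (∫ p in P, V p * (p.2 * (χ p * Hd ψ p))) + (∫ p in P, W p * (conj p.2 * (χ p * Hd ψ p))) +
        ∫ p in P, (e p * F p) * Hd ψ p := by
      have a1 : ∫ p in P, V p * (p.2 * (χ p * Hd ψ p)) = ∫ p in P, ((p.2 * χ p) * V p) * Hd ψ p := by
        congr 1; funext p; ring
      have a2 : ∫ p in P, W p * (conj p.2 * (χ p * Hd ψ p)) = ∫ p in P, ((conj p.2 * χ p) * W p) * Hd ψ p := by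
        congr 1; funext p; ring
      have i45 : Integrable (fun p => ((p.2 * χ p) * V p) * Hd ψ p +
        ((conj p.2 * χ p) * W p) * Hd ψ p) (volume.restrict P) := i4.add i5
      rw [a1, a2, ← integral_add i4 i5, ← integral_add i45 i3]
      congr 1
      funext p
      simp only [hA]
      ring
    rw [e1, e2, hw1, hw2]; ring
  have i6 : Integrable (fun p => ((1 - χ p) * F p) * ψ p) (volume.restrict P) :=
    m4.integrable_mul (hψ.cc.memLp.restrict P)
  have i7 : Integrable (fun p => G₁ p * ψ p) (volume.restrict P) :=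
    hG₁.integrable_mul (hψ.cc.memLp.restrict P)
  have e3 : ∫ p in P, F p * ψ p = (∫ p in P, ((1 - χ p) * F p) * ψ p) + ∫ p in P, F p * (χ p * ψ p) := by
    rw [← integral_add i6 (hF.int hχψ)]
    congr 1
    funext p
    ring
  have e4 : ∫ p in P, ((1 - χ p) * F p - G₁ p) * ψ p =
      (∫ p in P, ((1 - χ p) * F p) * ψ p) - ∫ p in P, G₁ p * ψ p := by
    rw [← integral_sub i6 i7]
    congr 1
    funext p
    ring
  rw [e3, e4, hkey, r ψ hψ]; ring

end Pool.Agent.H807R3
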