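import Mathlib
import Pool.Agent.H807R3.Hardy2

set_option autoImplicit false
open MeasureTheory Metric Set Filter Topology Complex
open scoped ContDiff ENNReal ComplexConjugate

namespace Pool.Agent.H807R3

/-- the Hartogs triangle -/
def T : Set E := {p | ‖p.1‖ < ‖p.2‖ ∧ ‖p.2‖ < 1}

def Ph (p : E) : E := (p.2 * p.1, p.2)
noncomputable def Ps (p : E) : E := (p.1 / p.2, p.2)

theorem isOpen_T : IsOpen T := by
  have h1 : IsOpen {p : E | ‖p.1‖ < ‖p.2‖} := isOpen_lt (by fun_prop) (by fun_prop)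
  have h3 : IsOpen {p : E | ‖p.2‖ < 1} := isOpen_lt (by fun_prop) continuous_const
  exact h1.inter h3

theorem Ph_mem {p : E} : Ph p ∈ T ↔ p ∈ P := by
  unfold Ph T P
  show (‖p.2 * p.1‖ < ‖p.2‖ ∧ ‖p.2‖ < 1) ↔ (‖p.1‖ < 1 ∧ 0 < ‖p.2‖ ∧ ‖p.2‖ < 1)
  rw [norm_mul]
  constructor
  · rintro ⟨h1, h2⟩
    have h0 : 0 < ‖p.2‖ := by
      have := mul_nonneg (norm_nonneg p.2) (norm_nonneg p.1)
      linarith
    exact ⟨by nlinarith, h0, h2⟩
  · rintro ⟨h1, h2, h3⟩
    exact ⟨by nlinarith, h3⟩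

theorem T_ne {p : E} (hp : p ∈ T) : p.2 ≠ 0 := by
  have h1 : ‖p.1‖ < ‖p.2‖ := hp.1
  intro h
  rw [h, norm_zero] at h1
  exact absurd h1 (not_lt.2 (norm_nonneg _))

theorem Ph_Ps {p : E} (hp : p.2 ≠ 0) : Ph (Ps p) = p := by
  unfold Ph Ps
  apply Prod.ext
  · show p.2 * (p.1 / p.2) = p.1
    field_simp
  · rfl

theorem Ps_Ph {p : E} (hp : p.2 ≠ 0) : Ps (Ph p) = p := by
  unfold Ph Ps
  apply Prod.ext
  · show p.2 * p.1 / p.2 = p.1
    field_simp
  · rfl

theorem Ps_mem {p : E} (hp : p.2 ≠ 0) : Ps p ∈ P ↔ p ∈ T := by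
  rw [← Ph_mem, Ph_Ps hp]

theorem meas_Ph : Measurable Ph := by
  unfold Ph
  fun_prop

theorem meas_Ps : Measurable Ps := by
  unfold Ps
  fun_prop

theorem lintegral_cscale (h : ℂ → ℝ≥0∞) (hh : Measurable h) {w : ℂ} (hw : w ≠ 0) :
    ∫⁻ z, h z = ENNReal.ofReal (‖w‖ ^ 2) * ∫⁻ z, h (w * z) := by
  have hdet : LinearMap.det (LinearMap.mul ℝ ℂ w) = ‖w‖ ^ 2 := by
    have := Algebra.norm_complex_apply w
    rw [Algebra.norm_apply] at this
    rw [← Complex.normSq_eq_norm_sq, ← this]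
    rfl
  have hne : LinearMap.det (LinearMap.mul ℝ ℂ w) ≠ 0 := by
    rw [hdet]
    have := norm_pos_iff.2 hw
    positivity
  have h1 := Measure.map_linearMap_addHaar_eq_smul_addHaar (volume : Measure ℂ) hne
  have h2 : ∫⁻ z, h z ∂(Measure.map (LinearMap.mul ℝ ℂ w) volume) = ∫⁻ z, h (w * z) :=
    lintegral_map hh (by
      show Measurable (fun z => w * z)
      fun_prop)
  rw [← h2, h1, lintegral_smul_measure, hdet, smul_eq_mul, ← mul_assoc, ← ENNReal.ofReal_mul (by positivity)]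
  have hp : 0 < ‖w‖ := norm_pos_iff.2 hw
  rw [abs_of_nonneg (by positivity), mul_inv_cancel₀ (by positivity)]
  simp

theorem lintegral_T (g : E → ℝ≥0∞) (hg : Measurable g) :
    ∫⁻ p in T, g p = ∫⁻ p in P, ENNReal.ofReal (‖p.2‖ ^ 2) * g (Ph p) := by
  have hTm := isOpen_T.measurableSet
  have hPm := isOpen_P.measurableSet
  rw [← lintegral_indicator hTm, ← lintegral_indicator hPm]
  have hv : (volume : Measure E) = (volume : Measure ℂ).prod volume := rfl
  have m1 : Measurable (T.indicator g) := hg.indicator hTm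
  have m2 : Measurable (P.indicator fun p => ENNReal.ofReal (‖p.2‖ ^ 2) * g (Ph p)) := by
    apply Measurable.indicator _ hPm
    have a1 : Measurable (fun p : E => ENNReal.ofReal (‖p.2‖ ^ 2)) := by fun_prop
    have a2 : Measurable (fun p : E => g (Ph p)) := hg.comp meas_Ph
    exact a1.mul a2
  rw [hv, lintegral_prod_symm _ m1.aemeasurable, lintegral_prod_symm _ m2.aemeasurable]
  congr 1; funext w
  by_cases hw : w = 0
  · have e1 : ∀ z, T.indicator g (z, w) = 0 := by
      intro z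
      apply indicator_of_notMem
      intro hz
      exact T_ne hz hw
    have e2 : ∀ z, P.indicator (fun p => ENNReal.ofReal (‖p.2‖ ^ 2) * g (Ph p)) (z, w) = 0 := by
      intro z
      apply indicator_of_notMem
      intro hz
      exact ne_of_P hz hw
    simp_rw [e1, e2]
  · have m3 : Measurable (fun z => T.indicator g (z, w)) := m1.comp (by fun_prop)
    rw [lintegral_cscale _ m3 hw, ← lintegral_const_mul]
    · congr 1; funext z
      by_cases hz : ((z, w) : E) ∈ P
      · have hz' : ((w * z, w) : E) ∈ T := Ph_mem.2 hz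
        rw [indicator_of_mem hz, indicator_of_mem hz']
        rfl
      · have hz' : ((w * z, w) : E) ∉ T := fun h => hz (Ph_mem.1 h)
        rw [indicator_of_notMem hz, indicator_of_notMem hz', mul_zero]
    · exact m3.comp (by fun_prop)

noncomputable def nu : Measure E := (volume.restrict P).withDensity (fun p => ENNReal.ofReal (‖p.2‖ ^ 2))

theorem meas_dens : Measurable (fun p : E => ENNReal.ofReal (‖p.2‖ ^ 2)) := by fun_prop

theorem mp_Ph : MeasurePreserving Ph nu (volume.restrict T) := by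
  refine ⟨meas_Ph, ?_⟩
  ext s hs
  rw [Measure.map_apply meas_Ph hs, nu, withDensity_apply _ (meas_Ph hs)]
  have h1 := lintegral_T (s.indicator 1) (measurable_one.indicator hs)
  rw [lintegral_indicator_one hs] at h1
  rw [h1, ← lintegral_indicator (meas_Ph hs)]
  congr 1; funext p
  by_cases hp : Ph p ∈ s
  · rw [indicator_of_mem (s := Ph ⁻¹' s) hp, indicator_of_mem hp, Pi.one_apply, mul_one]
  · rw [indicator_of_notMem (s := Ph ⁻¹' s) hp, indicator_of_notMem hp, mul_zero]

theorem nu_ac : nu ≪ volume.restrict P := withDensity_absolutelyContinuous _ _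

theorem ac_nu : volume.restrict P ≪ nu := by
  apply withDensity_absolutelyContinuous' meas_dens.aemeasurable
  filter_upwards [ae_restrict_mem isOpen_P.measurableSet] with p hp
  have := hp.2.1
  simp only [ne_eq, ENNReal.ofReal_eq_zero, not_le]
  positivity

theorem mp_Ps : MeasurePreserving Ps (volume.restrict T) nu := by
  refine ⟨meas_Ps, ?_⟩
  rw [← mp_Ph.map_eq, Measure.map_map meas_Ps meas_Ph]
  have : Ps ∘ Ph =ᵐ[nu] id := by
    apply nu_ac.ae_le
    filter_upwards [ae_restrict_mem isOpen_P.measurableSet] with p hp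
    exact Ps_Ph (ne_of_P hp)
  rw [Measure.map_congr this, Measure.map_id]

theorem WL_iff {F : E → ℂ} : WL F ↔ MemLp F 2 nu := by
  have key : AEStronglyMeasurable F (volume.restrict P) →
      eLpNorm F 2 nu = eLpNorm (fun p => p.2 * F p) 2 (volume.restrict P) := by
    intro h
    rw [eLpNorm_eq_lintegral_rpow_enorm_toReal (by norm_num) (by norm_num),
      eLpNorm_eq_lintegral_rpow_enorm_toReal (by norm_num) (by norm_num)]
    simp only [ENNReal.toReal_ofNat]
    congr 1
    unfold nu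
    rw [lintegral_withDensity_eq_lintegral_mul₀ meas_dens.aemeasurable (h.enorm.pow_const _)]
    congr 1; funext p
    simp only [Pi.mul_apply]
    rw [enorm_mul, ENNReal.mul_rpow_of_nonneg _ _ (by norm_num)]
    congr 1
    rw [← ofReal_norm, ENNReal.ofReal_rpow_of_nonneg (norm_nonneg _) (by norm_num), Real.rpow_two]
  constructor
  · rintro ⟨h1, h2⟩
    exact ⟨h1.mono_ac nu_ac, by rw [key h1]; exact h2.2⟩
  · rintro ⟨h1, h2⟩
    have h1' := h1.mono_ac ac_nu
    exact ⟨h1', continuous_snd.aestronglyMeasurable.mul h1', by rw [← key h1']; exact h2⟩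

theorem WL_of_T {f : E → ℂ} (hf : MemLp f 2 (volume.restrict T)) : WL (fun p => f (Ph p)) :=
  WL_iff.2 (hf.comp_measurePreserving mp_Ph)

theorem memLp_of_WL {F : E → ℂ} (hF : WL F) : MemLp (fun p => F (Ps p)) 2 (volume.restrict T) :=
  (WL_iff.1 hF).comp_measurePreserving mp_Ps

theorem int_T {f : E → ℂ} (hf : AEStronglyMeasurable f (volume.restrict T)) :
    ∫ p in T, f p = ∫ p in P, ((‖p.2‖ ^ 2 : ℝ) : ℂ) * f (Ph p) := by
  have h1 : ∫ p in T, f p = ∫ p, f (Ph p) ∂nu := by
    rw [← mp_Ph.map_eq] at hf ⊢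
    exact integral_map meas_Ph.aemeasurable hf
  rw [h1]
  unfold nu
  rw [integral_withDensity_eq_integral_toReal_smul meas_dens (ae_of_all _ fun _ => ENNReal.ofReal_lt_top)]
  congr 1; funext p
  rw [ENNReal.toReal_ofReal (by positivity), Complex.real_smul]

/-! test functions -/

theorem smooth_Ph : ContDiff ℝ ∞ Ph := by
  unfold Ph
  exact (contDiff_snd.mul contDiff_fst).prodMk contDiff_snd

theorem smoothAt_Ps {p : E} (hp : p.2 ≠ 0) : ContDiffAt ℝ ∞ Ps p := by
  unfold Ps
  have h1 : ContDiffAt ℝ ∞ (fun p : E => (p.2)⁻¹) p := contDiffAt_snd.inv hp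
  have h2 : ContDiffAt ℝ ∞ (fun p : E => p.1 * (p.2)⁻¹) p := contDiffAt_fst.mul h1
  exact h2.prodMk contDiffAt_snd

theorem test_Ph {φ : E → ℂ} (hφ : IsTest T φ) : IsTest P (fun p => φ (Ph p)) := by
  have hK : IsCompact (Ps '' tsupport φ) := by
    apply hφ.2.1.isCompact.image_of_continuousOn
    intro p hp
    exact (smoothAt_Ps (T_ne (hφ.2.2 hp))).continuousAt.continuousWithinAt
  have hsub : tsupport (fun p => φ (Ph p)) ⊆ Ps '' tsupport φ := by
    apply closure_minimal _ hK.isClosed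
    intro p hp
    have h1 : Ph p ∈ tsupport φ := subset_tsupport _ hp
    have h2 : p.2 ≠ 0 := T_ne (p := Ph p) (hφ.2.2 h1)
    exact ⟨Ph p, h1, Ps_Ph h2⟩
  refine ⟨hφ.1.comp smooth_Ph, hK.of_isClosed_subset (isClosed_tsupport _) hsub, hsub.trans ?_⟩
  rintro _ ⟨q, hq, rfl⟩
  exact (Ps_mem (T_ne (hφ.2.2 hq))).2 (hφ.2.2 hq)

theorem test_Ps {η : E → ℂ} (hη : IsTest P η) : IsTest T (fun p => η (Ps p)) := by
  have hK : IsCompact (Ph '' tsupport η) := hη.2.1.isCompact.image smooth_Ph.continuous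
  have hsupp : Function.support (fun p => η (Ps p)) ⊆ Ph '' tsupport η := by
    intro p hp
    have h1 : Ps p ∈ tsupport η := subset_tsupport _ hp
    have h2 : p.2 ≠ 0 := ne_of_P (p := Ps p) (hη.2.2 h1)
    exact ⟨Ps p, h1, Ph_Ps h2⟩
  have hsub : tsupport (fun p => η (Ps p)) ⊆ Ph '' tsupport η := closure_minimal hsupp hK.isClosed
  have hKT : Ph '' tsupport η ⊆ T := by
    rintro _ ⟨q, hq, rfl⟩
    exact Ph_mem.2 (hη.2.2 hq)
  refine ⟨?_, hK.of_isClosed_subset (isClosed_tsupport _) hsub, hsub.trans hKT⟩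
  rw [contDiff_iff_contDiffAt]
  intro p
  by_cases hp : p ∈ Ph '' tsupport η
  · exact hη.1.contDiffAt.comp p (smoothAt_Ps (T_ne (hKT hp)))
  · have hev : (fun p => η (Ps p)) =ᶠ[𝓝 p] fun _ => 0 := by
      filter_upwards [hK.isClosed.isOpen_compl.mem_nhds hp] with q hq
      by_contra hne
      exact hq (hsupp hne)
    exact contDiffAt_const.congr_of_eventuallyEq hev

theorem Ps_Ph_test {η : E → ℂ} (hη : IsTest P η) (p : E) : η (Ps (Ph p)) = η p := by
  by_cases hp : p.2 = 0
  · have h1 : η p = 0 := by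
      by_contra hne
      exact ne_of_P (hη.2.2 (subset_tsupport _ hne)) hp
    have h2 : η (Ps (Ph p)) = 0 := by
      by_contra hne
      exact ne_of_P (hη.2.2 (subset_tsupport _ hne)) hp
    rw [h1, h2]
  · rw [Ps_Ph hp]

end Pool.Agent.H807R3
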