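import Mathlib
import Pool.Agent.H807R3.Trans

set_option autoImplicit false
open MeasureTheory Metric Set Filter Topology Complex
open scoped ContDiff ENNReal ComplexConjugate

namespace Pool.Agent.H807R3

/-- `cj 1 w = conj w`, `cj (-1) w = w` -/
noncomputable def cj (c : ℂ) : ℂ →L[ℝ] ℂ :=
  Complex.ofRealCLM.comp Complex.reCLM - (c * I) • (Complex.ofRealCLM.comp Complex.imCLM)

theorem cj_apply (c w : ℂ) : cj c w = w.re - c * I * w.im := rfl

theorem cj_one (w : ℂ) : cj 1 w = conj w := by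
  rw [cj_apply]
  apply Complex.ext <;> simp

theorem cj_neg_one (w : ℂ) : cj (-1) w = w := by
  rw [cj_apply]
  apply Complex.ext <;> simp

theorem cj_mul {c : ℂ} (hc : c * c = 1) (w : ℂ) : cj c w * cj (-c) w = ((‖w‖ ^ 2 : ℝ) : ℂ) := by
  rw [cj_apply, cj_apply, ← Complex.normSq_eq_norm_sq, Complex.normSq_apply]
  push_cast
  have := I_mul_I
  linear_combination (-(w.im : ℂ) ^ 2 * I * I) * hc - (w.im : ℂ) ^ 2 * this

theorem cj_ne {c : ℂ} (hc : c * c = 1) {w : ℂ} (hw : w ≠ 0) : cj c w ≠ 0 := by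
  intro h
  have := cj_mul hc w
  rw [h, zero_mul] at this
  have h2 : (‖w‖ ^ 2 : ℝ) = 0 := by exact_mod_cast this.symm
  have := norm_pos_iff.2 hw
  exact (by positivity : (‖w‖ ^ 2 : ℝ) ≠ 0) h2

theorem norm_cj {c : ℂ} (hc : c = 1 ∨ c = -1) (w : ℂ) : ‖cj c w‖ = ‖w‖ := by
  rcases hc with rfl | rfl
  · rw [cj_one, Complex.norm_conj]
  · rw [cj_neg_one]

theorem hcc {c : ℂ} (hc : c = 1 ∨ c = -1) : c * c = 1 := by
  rcases hc with rfl | rfl <;> norm_num

theorem hcn {c : ℂ} (hc : c = 1 ∨ c = -1) : -c = 1 ∨ -c = -1 := by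
  rcases hc with rfl | rfl
  · right; rfl
  · left; norm_num

theorem D_lin (ι : ℂ →L[ℝ] E) (c : ℂ) (L : E →L[ℝ] ℂ) (p : E) :
    D ι c (fun q => L q) p = (L (ι 1) + c * I * L (ι I)) / 2 := by
  unfold D
  rw [show (fun q => L q) = (L : E → ℂ) from rfl, L.fderiv]

theorem cj_1 (c : ℂ) : cj c 1 = 1 := by rw [cj_apply]; simp
theorem cj_I (c : ℂ) : cj c I = - (c * I) := by rw [cj_apply]; simp

theorem D1_cj1 (c c' : ℂ) (p : E) : D i1 c (fun q => cj c' q.1) p = (1 + c * c') / 2 := by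
  have := D_lin i1 c ((cj c').comp q1) p
  simp only [ContinuousLinearMap.comp_apply, q1_i1, cj_1, cj_I] at this
  have h : D i1 c (fun q => cj c' q.1) p = (1 + c * I * -(c' * I)) / 2 := this
  rw [h]
  have := I_mul_I
  linear_combination (-c * c' / 2) * this

theorem D2_cj2 (c c' : ℂ) (p : E) : D i2 c (fun q => cj c' q.2) p = (1 + c * c') / 2 := by
  have := D_lin i2 c ((cj c').comp q2) p
  simp only [ContinuousLinearMap.comp_apply, q2_i2, cj_1, cj_I] at this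
  have h : D i2 c (fun q => cj c' q.2) p = (1 + c * I * -(c' * I)) / 2 := this
  rw [h]
  have := I_mul_I
  linear_combination (-c * c' / 2) * this

theorem D1_cj2 (c c' : ℂ) (p : E) : D i1 c (fun q => cj c' q.2) p = 0 := by
  have := D_lin i1 c ((cj c').comp q2) p
  simp only [ContinuousLinearMap.comp_apply, q2_i1, map_zero] at this
  have h : D i1 c (fun q => cj c' q.2) p = (0 + c * I * 0) / 2 := this
  rw [h]; simp

theorem D2_cj1 (c c' : ℂ) (p : E) : D i2 c (fun q => cj c' q.1) p = 0 := by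
  have := D_lin i2 c ((cj c').comp q1) p
  simp only [ContinuousLinearMap.comp_apply, q1_i2, map_zero] at this
  have h : D i2 c (fun q => cj c' q.1) p = (0 + c * I * 0) / 2 := this
  rw [h]; simp

theorem dcj1 (c : ℂ) (p : E) : DifferentiableAt ℝ (fun q : E => cj c q.1) p := ((cj c).comp q1).differentiableAt
theorem dcj2 (c : ℂ) (p : E) : DifferentiableAt ℝ (fun q : E => cj c q.2) p := ((cj c).comp q2).differentiableAt
theorem ccj1 (c : ℂ) : ContDiff ℝ ∞ (fun q : E => cj c q.1) := ((cj c).comp q1).contDiff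
theorem ccj2 (c : ℂ) : ContDiff ℝ ∞ (fun q : E => cj c q.2) := ((cj c).comp q2).contDiff

theorem fderiv_decomp (φ : E → ℂ) (q : E) (x y : ℂ) :
    fderiv ℝ φ q (x, y) = x.re * fderiv ℝ φ q (i1 1) + x.im * fderiv ℝ φ q (i1 I) +
      y.re * fderiv ℝ φ q (i2 1) + y.im * fderiv ℝ φ q (i2 I) := by
  have : ((x, y) : E) = x.re • i1 1 + x.im • i1 I + y.re • i2 1 + y.im • i2 I := by
    rw [i2_apply, i2_apply, i1_apply, i1_apply]
    apply Prod.ext
    · apply Complex.ext <;> simp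
    · apply Complex.ext <;> simp
  rw [this]
  simp only [map_add, map_smul, Complex.real_smul]

theorem fderiv_Ph {φ : E → ℂ} {p : E} (hφ : DifferentiableAt ℝ φ (Ph p)) (a b : ℂ) :
    fderiv ℝ (fun q => φ (Ph q)) p (a, b) = fderiv ℝ φ (Ph p) (p.2 * a + b * p.1, b) := by
  have h1 : HasFDerivAt (fun q : E => q.2 * q.1)
      (p.2 • (ContinuousLinearMap.fst ℝ ℂ ℂ) + p.1 • (ContinuousLinearMap.snd ℝ ℂ ℂ)) p := by
    have := (hasFDerivAt_snd (𝕜 := ℝ) (p := p)).mul (hasFDerivAt_fst (𝕜 := ℝ) (p := p))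
    exact this
  have h2 : HasFDerivAt Ph ((p.2 • (ContinuousLinearMap.fst ℝ ℂ ℂ) + p.1 • (ContinuousLinearMap.snd ℝ ℂ ℂ)).prod
      (ContinuousLinearMap.snd ℝ ℂ ℂ)) p := h1.prodMk hasFDerivAt_snd
  have h3 := hφ.hasFDerivAt.comp p h2
  have h4 : fderiv ℝ (fun q => φ (Ph q)) p = _ := h3.fderiv
  rw [h4]
  simp only [ContinuousLinearMap.comp_apply, ContinuousLinearMap.prod_apply, add_apply, smul_apply,
    ContinuousLinearMap.coe_fst', ContinuousLinearMap.coe_snd', smul_eq_mul]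
  congr 3
  ring

theorem chain1 {c : ℂ} (hc : c * c = 1) {φ : E → ℂ} {p : E} (hφ : DifferentiableAt ℝ φ (Ph p)) :
    D i1 c (fun q => φ (Ph q)) p = cj c p.2 * D i1 c φ (Ph p) := by
  unfold D
  rw [i1_apply, i1_apply, fderiv_Ph hφ, fderiv_Ph hφ, fderiv_decomp, fderiv_decomp φ (Ph p) (p.2 * I + 0 * p.1) 0,
    cj_apply, i1_apply, i1_apply]
  set g1 := fderiv ℝ φ (Ph p) (1, 0)
  set g2 := fderiv ℝ φ (Ph p) (I, 0)
  simp only [mul_one, zero_mul, add_zero, Complex.mul_re, Complex.mul_im, Complex.I_re, Complex.I_im,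
    mul_zero, zero_sub, Complex.zero_re, Complex.zero_im, Complex.ofReal_zero]
  push_cast
  have := I_mul_I
  linear_combination (I * I * (p.2.im : ℂ) * g2 / 2) * hc + ((p.2.im : ℂ) * g2 / 2) * this

theorem chain2 {c : ℂ} (hc : c * c = 1) {φ : E → ℂ} {p : E} (hφ : DifferentiableAt ℝ φ (Ph p)) :
    D i2 c (fun q => φ (Ph q)) p = cj c p.1 * D i1 c φ (Ph p) + D i2 c φ (Ph p) := by
  unfold D
  rw [i2_apply, i2_apply, fderiv_Ph hφ, fderiv_Ph hφ, fderiv_decomp,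
    fderiv_decomp φ (Ph p) (p.2 * 0 + I * p.1) I, cj_apply, i1_apply, i1_apply, i2_apply, i2_apply]
  set g1 := fderiv ℝ φ (Ph p) (1, 0)
  set g2 := fderiv ℝ φ (Ph p) (I, 0)
  set g3 := fderiv ℝ φ (Ph p) (0, 1)
  set g4 := fderiv ℝ φ (Ph p) (0, I)
  simp only [mul_one, one_mul, zero_add, zero_mul, add_zero, Complex.mul_re, Complex.mul_im, Complex.I_re, Complex.I_im,
    mul_zero, zero_sub, Complex.zero_re, Complex.zero_im, Complex.ofReal_zero, Complex.one_re, Complex.one_im,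
    Complex.ofReal_one]
  push_cast
  have := I_mul_I
  linear_combination (I * I * (p.1.im : ℂ) * g2 / 2) * hc + ((p.1.im : ℂ) * g2 / 2) * this

/-- (★1) -/
theorem star1 {c : ℂ} (hc : c * c = 1) {φ : E → ℂ} (hφ : Differentiable ℝ φ) (p : E) :
    ((‖p.2‖ ^ 2 : ℝ) : ℂ) * D i1 c φ (Ph p) = D i1 c (fun q => cj (-c) q.2 * φ (Ph q)) p := by
  have hd : DifferentiableAt ℝ (fun q => φ (Ph q)) p :=
    (hφ _).comp p (smooth_Ph.differentiable (by simp) p)
  rw [D_mul (dcj2 _ _) hd, D1_cj2, chain1 hc (hφ _), ← cj_mul hc]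
  ring

/-- (★2) -/
theorem star2 {c : ℂ} (hc : c * c = 1) {φ : E → ℂ} (hφ : Differentiable ℝ φ) (p : E) :
    ((‖p.2‖ ^ 2 : ℝ) : ℂ) * D i2 c φ (Ph p) =
      D i2 c (fun q => (cj c q.2 * cj (-c) q.2) * φ (Ph q)) p -
      D i1 c (fun q => (cj (-c) q.2 * cj c q.1) * φ (Ph q)) p := by
  have hd : DifferentiableAt ℝ (fun q => φ (Ph q)) p :=
    (hφ _).comp p (smooth_Ph.differentiable (by simp) p)
  rw [D_mul (a := fun q : E => cj c q.2 * cj (-c) q.2) ((dcj2 _ _).mul (dcj2 _ _)) hd,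
    D_mul (a := fun q : E => cj (-c) q.2 * cj c q.1) ((dcj2 _ _).mul (dcj1 _ _)) hd,
    D_mul (dcj2 _ _) (dcj2 _ _), D_mul (dcj2 _ _) (dcj1 _ _), D2_cj2, D2_cj2, D1_cj2, D1_cj1,
    chain1 hc (hφ _), chain2 hc (hφ _), ← cj_mul hc]
  have h1 : c * -c = -1 := by linear_combination -hc
  rw [h1, hc]
  ring

end Pool.Agent.H807R3
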