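import Mathlib
import Pool.Agent.H807R3.Trans3

set_option autoImplicit false
open MeasureTheory Metric Set Filter Topology Complex
open scoped ContDiff ENNReal ComplexConjugate

namespace Pool.Agent.H807R3

/-- the four weak Wirtinger derivatives on `T`, all in `L²(T)` -/
structure Wirt (f A A' C C' : E → ℂ) : Prop where
  mf : MemLp f 2 (volume.restrict T)
  mA : MemLp A 2 (volume.restrict T)
  mA' : MemLp A' 2 (volume.restrict T)
  mC : MemLp C 2 (volume.restrict T)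
  mC' : MemLp C' 2 (volume.restrict T)
  wA : WD T i1 1 f A
  wA' : WD T i1 (-1) f A'
  wC : WD T i2 1 f C
  wC' : WD T i2 (-1) f C'

theorem one_or : (1:ℂ) = 1 ∨ (1:ℂ) = -1 := Or.inl rfl
theorem neg_or : (-1:ℂ) = 1 ∨ (-1:ℂ) = -1 := Or.inr rfl

theorem Wirt.rep {f A A' C C' : E → ℂ} (h : Wirt f A A' C C') :
    ∃ G : E → ℂ, MemLp G 2 (volume.restrict P) ∧
      ∀ φ, IsTest P φ → ∫ p in P, f (Ph p) * φ p = ∫ p in P, G p * φ p := by
  have w1 := fwd2 one_or h.mf h.mA h.mC h.wA h.wC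
  have w2 := fwd2 neg_or h.mf h.mA' h.mC' h.wA' h.wC'
  have b : ∀ {c : ℂ} (_ : c = 1 ∨ c = -1) {A C : E → ℂ}, MemLp A 2 (volume.restrict T) →
      MemLp C 2 (volume.restrict T) → WL (fun p => C (Ph p) + cj c p.1 * A (Ph p)) := by
    intro c hc A C hA hC
    exact (WL_of_T hC).add ((WL_of_T hA).bmul (meas_cj1 c) (fun p hp => by
      rw [norm_cj hc]; exact hp.1.le))
  exact hardy (WL_of_T h.mf) (b neg_or h.mA' h.mC') (b one_or h.mA h.mC) w2 w1

theorem main_T {f1 A1 A1' C1 C1' f2 A2 A2' C2 C2' : E → ℂ}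
    (h1 : Wirt f1 A1 A1' C1 C1') (h2 : Wirt f2 A2 A2' C2 C2')
    (hcl : ∀ φ, IsTest T φ → ∫ p in T, f1 p * D i2 1 φ p = ∫ p in T, f2 p * D i1 1 φ p) :
    ∃ u X Y : E → ℂ, MemLp u 2 (volume.restrict T) ∧ MemLp X 2 (volume.restrict T) ∧
      MemLp Y 2 (volume.restrict T) ∧ WD T i1 1 u f1 ∧ WD T i2 1 u f2 ∧
      WD T i1 (-1) u X ∧ WD T i2 (-1) u Y := by
  have hPm := isOpen_P.measurableSet
  obtain ⟨G1, mG1, r1⟩ := h1.rep
  obtain ⟨G2, mG2, r2⟩ := h2.rep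
  have cl := closed_P h1.mf h2.mf hcl
  -- weak derivatives on `P`
  have a1 := fwd1 one_or h1.mf h1.mA h1.wA
  have a1' := fwd1 neg_or h1.mf h1.mA' h1.wA'
  have a2 := fwd1 one_or h2.mf h2.mA h2.wA
  have a2' := fwd1 neg_or h2.mf h2.mA' h2.wA'
  have c1' := fwd2 neg_or h1.mf h1.mA' h1.mC' h1.wA' h1.wC'
  have wF1 : WL (fun p => f1 (Ph p)) := WL_of_T h1.mf
  have wF2 : WL (fun p => f2 (Ph p)) := WL_of_T h2.mf
  have wA1 : WL (fun p => A1 (Ph p)) := WL_of_T h1.mA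
  have wA1' : WL (fun p => A1' (Ph p)) := WL_of_T h1.mA'
  have wA2 : WL (fun p => A2 (Ph p)) := WL_of_T h2.mA
  have wA2' : WL (fun p => A2' (Ph p)) := WL_of_T h2.mA'
  have wC1' : WL (fun p => C1' (Ph p)) := WL_of_T h1.mC'
  have toWL : ∀ {Y : E → ℂ}, MemLp Y 2 (volume.restrict P) → WL Y := by
    intro Y hY
    have := WL.of_bdd hY (m := fun _ => 1) measurable_const (by
      intro p hp; rw [mul_one]; exact hp.2.2.le)
    simpa using this
  have wG1 := toWL mG1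
  have wG2 := toWL mG2
  -- the data on `P`
  set F1 : E → ℂ := fun p => cj 1 p.2 * G1 p with hF1
  set F2 : E → ℂ := fun p => G2 p + cj 1 p.1 * G1 p with hF2
  set K : E → ℂ := fun p => cj 1 p.2 * A2 (Ph p) + cj 1 p.1 * (cj 1 p.2 * A1 (Ph p)) + G1 p with hK
  set X : E → ℂ := fun p => cj (-1) p.2 * A2' (Ph p) + cj 1 p.1 * (cj (-1) p.2 * A1' (Ph p)) with hX
  set Y : E → ℂ := fun p => cj 1 p.2 * (C1' (Ph p) + cj (-1) p.1 * A1' (Ph p)) with hY
  -- membership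
  have bm : ∀ {c : ℂ} (_ : c = 1 ∨ c = -1) {F : E → ℂ}, WL F →
      MemLp (fun p => cj c p.2 * F p) 2 (volume.restrict P) := by
    intro c hc F hF
    exact hF.mul (meas_cj2 c).aestronglyMeasurable 1 (fun p _ => by rw [norm_cj hc, one_mul])
  have bs : ∀ {F : E → ℂ}, MemLp F 2 (volume.restrict P) →
      MemLp (fun p => cj 1 p.1 * F p) 2 (volume.restrict P) := by
    intro F hF
    refine MemLp.of_le_mul (c := 1) hF ((meas_cj1 1).aestronglyMeasurable.mul hF.1) ?_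
    filter_upwards [ae_restrict_mem hPm] with p hp
    rw [norm_mul, norm_cj one_or]
    exact mul_le_mul_of_nonneg_right hp.1.le (norm_nonneg _)
  have mF1 : MemLp F1 2 (volume.restrict P) := bm one_or wG1
  have mF2 : MemLp F2 2 (volume.restrict P) := mG2.add (bs mG1)
  have mK : MemLp K 2 (volume.restrict P) := ((bm one_or wA2).add (bs (bm one_or wA1))).add mG1
  have mX : MemLp X 2 (volume.restrict P) := (bm neg_or wA2').add (bs (bm neg_or wA1'))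
  have mY : MemLp Y 2 (volume.restrict P) := by
    apply bm one_or
    exact wC1'.add (wA1'.bmul (meas_cj1 (-1)) (fun p hp => by rw [norm_cj neg_or]; exact hp.1.le))
  have int : ∀ {A φ : E → ℂ}, MemLp A 2 (volume.restrict P) → IsTest P φ →
      Integrable (fun p => A p * φ p) (volume.restrict P) :=
    fun hA hφ => hA.integrable_mul (hφ.cc.memLp.restrict P)
  -- weak equations
  have eF2 : ∀ θ, IsTest P θ → ∫ p in P, F2 p * θ p =
      (∫ p in P, f2 (Ph p) * θ p) + ∫ p in P, f1 (Ph p) * (cj 1 p.1 * θ p) := by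
    intro θ hθ
    rw [r2 θ hθ, r1 _ (hθ.mul (ccj1 1)), ← integral_add (int mG2 hθ) (int mG1 (hθ.mul (ccj1 1)))]
    congr 1
    funext p
    rw [hF2]; ring
  have wK : WD P i1 1 F2 K := by
    intro ψ hψ
    have hdψ := hψ.1.differentiable (by simp)
    have t1 : IsTest P (fun p => cj 1 p.1 * ψ p) := hψ.mul (ccj1 1)
    have hD : ∀ p, D i1 1 (fun p => cj 1 p.1 * ψ p) p = ψ p + cj 1 p.1 * D i1 1 ψ p := by
      intro p
      rw [D_mul (dcj1 _ _) (hdψ p), D1_cj1]; ring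
    have e1 : ∫ p in P, f1 (Ph p) * (cj 1 p.1 * D i1 1 ψ p) =
        (∫ p in P, f1 (Ph p) * D i1 1 (fun p => cj 1 p.1 * ψ p) p) - ∫ p in P, f1 (Ph p) * ψ p := by
      rw [← integral_sub (wF1.int (t1.D i1 1)) (wF1.int hψ)]
      congr 1
      funext p
      rw [hD]; ring
    have e2 : ∫ p in P, K p * ψ p = (∫ p in P, (cj 1 p.2 * A2 (Ph p)) * ψ p) +
        (∫ p in P, (cj 1 p.2 * A1 (Ph p)) * (cj 1 p.1 * ψ p)) + ∫ p in P, G1 p * ψ p := by
      have i12 : Integrable (fun p => (cj 1 p.2 * A2 (Ph p)) * ψ p +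
        (cj 1 p.2 * A1 (Ph p)) * (cj 1 p.1 * ψ p)) (volume.restrict P) :=
        (int (bm one_or wA2) hψ).add (int (bm one_or wA1) t1)
      rw [← integral_add (int (bm one_or wA2) hψ) (int (bm one_or wA1) t1),
        ← integral_add i12 (int mG1 hψ)]
      congr 1
      funext p
      rw [hK]; ring
    have := a2 ψ hψ
    have h3 := a1 _ t1
    rw [eF2 _ (hψ.D i1 1), e1, e2, this, h3, r1 ψ hψ]; ring
  have wX : WD P i1 (-1) F2 X := by
    intro ψ hψ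
    have hdψ := hψ.1.differentiable (by simp)
    have t1 : IsTest P (fun p => cj 1 p.1 * ψ p) := hψ.mul (ccj1 1)
    have hD : ∀ p, D i1 (-1) (fun p => cj 1 p.1 * ψ p) p = cj 1 p.1 * D i1 (-1) ψ p := by
      intro p
      rw [D_mul (dcj1 _ _) (hdψ p), D1_cj1]; ring
    have e1 : ∫ p in P, f1 (Ph p) * (cj 1 p.1 * D i1 (-1) ψ p) =
        ∫ p in P, f1 (Ph p) * D i1 (-1) (fun p => cj 1 p.1 * ψ p) p := by
      congr 1
      funext p
      rw [hD]
    have e2 : ∫ p in P, X p * ψ p = (∫ p in P, (cj (-1) p.2 * A2' (Ph p)) * ψ p) +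
        ∫ p in P, (cj (-1) p.2 * A1' (Ph p)) * (cj 1 p.1 * ψ p) := by
      rw [← integral_add (int (bm neg_or wA2') hψ) (int (bm neg_or wA1') t1)]
      congr 1
      funext p
      rw [hX]; ring
    have := a2' ψ hψ
    have h3 := a1' _ t1
    rw [eF2 _ (hψ.D i1 (-1)), e1, e2, this, h3]; ring
  have wY : WD P i2 (-1) F1 Y := by
    intro ψ hψ
    have hdψ := hψ.1.differentiable (by simp)
    have t1 : IsTest P (fun p => cj 1 p.2 * ψ p) := hψ.mul (ccj2 1)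
    have hD : ∀ p, D i2 (-1) (fun p => cj 1 p.2 * ψ p) p = cj 1 p.2 * D i2 (-1) ψ p := by
      intro p
      rw [D_mul (dcj2 _ _) (hdψ p), D2_cj2]; ring
    have e1 : ∫ p in P, F1 p * D i2 (-1) ψ p =
        ∫ p in P, f1 (Ph p) * D i2 (-1) (fun p => cj 1 p.2 * ψ p) p := by
      rw [r1 _ (t1.D i2 (-1))]
      congr 1
      funext p
      rw [hD, hF1]; ring
    have e2 : ∫ p in P, Y p * ψ p = ∫ p in P, (C1' (Ph p) + cj (-1) p.1 * A1' (Ph p)) * (cj 1 p.2 * ψ p) := by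
      congr 1
      funext p
      rw [hY]; ring
    rw [e1, e2]
    exact c1' _ t1
  have wK2 : WD P i2 1 F1 K := by
    intro ψ hψ
    have t1 : IsTest P (fun p => cj 1 p.2 * D i2 1 ψ p) := (hψ.D i2 1).mul (ccj2 1)
    have e1 : ∫ p in P, F1 p * D i2 1 ψ p = ∫ p in P, f1 (Ph p) * (cj 1 p.2 * D i2 1 ψ p) := by
      rw [r1 _ t1]
      congr 1
      funext p
      rw [hF1]; ring
    rw [e1, cl ψ hψ, ← eF2 _ (hψ.D i1 1)]
    exact wK ψ hψ
  obtain ⟨U, X', Y', mU, mX', mY', u1, u2, u3, u4⟩ := solveP mF1 mF2 mK mX mY wK2 wK wX wY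
  obtain ⟨bp1, bp2, bp3, bp4⟩ := bwd one_or mU mF1 mF2 u1 u2
  obtain ⟨bm1, bm2, bm3, bm4⟩ := bwd neg_or mU mX' mY' u3 u4
  refine ⟨fun p => U (Ps p), _, _, memLp_of_WL (toWL mU), memLp_of_WL bm1, memLp_of_WL bm2, ?_, ?_, bm3, bm4⟩
  · intro φ hφ
    rw [bp3 φ hφ]
    congr 1
    rw [int_T (aesm_mul (memLp_of_WL bp1) hφ), int_T (aesm_mul h1.mf hφ)]
    have hη := test_Ph hφ
    have hN : ContDiff ℝ ∞ (fun p : E => cj 1 p.2 * cj (-1) p.2) := (ccj2 1).mul (ccj2 (-1))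
    have t := hη.mul hN
    have e1 : ∫ p in P, ((‖p.2‖ ^ 2 : ℝ) : ℂ) * (f1 (Ph p) * φ (Ph p)) =
        ∫ p in P, f1 (Ph p) * ((cj 1 p.2 * cj (-1) p.2) * φ (Ph p)) := by
      congr 1
      funext p
      rw [← cj_mul (c := 1) (by norm_num)]; ring
    rw [e1, r1 _ t]
    apply setIntegral_congr_fun hPm
    intro p hp
    show ((‖p.2‖ ^ 2 : ℝ) : ℂ) * ((cj 1 (Ps (Ph p)).2)⁻¹ * F1 (Ps (Ph p)) * φ (Ph p)) = _
    rw [Ps_Ph (ne_of_P hp), ← cj_mul (c := 1) (by norm_num), hF1]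
    have := cj_ne (c := 1) (by norm_num) (ne_of_P hp)
    field_simp
  · intro φ hφ
    rw [bp4 φ hφ]
    congr 1
    rw [int_T (aesm_mul (memLp_of_WL bp2) hφ), int_T (aesm_mul h2.mf hφ)]
    have hη := test_Ph hφ
    have hN : ContDiff ℝ ∞ (fun p : E => cj 1 p.2 * cj (-1) p.2) := (ccj2 1).mul (ccj2 (-1))
    have t := hη.mul hN
    have e1 : ∫ p in P, ((‖p.2‖ ^ 2 : ℝ) : ℂ) * (f2 (Ph p) * φ (Ph p)) =
        ∫ p in P, f2 (Ph p) * ((cj 1 p.2 * cj (-1) p.2) * φ (Ph p)) := by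
      congr 1
      funext p
      rw [← cj_mul (c := 1) (by norm_num)]; ring
    rw [e1, r2 _ t]
    apply setIntegral_congr_fun hPm
    intro p hp
    show ((‖p.2‖ ^ 2 : ℝ) : ℂ) * ((F2 (Ps (Ph p)) - (cj 1 (Ps (Ph p)).1 * (cj 1 (Ps (Ph p)).2)⁻¹) * F1 (Ps (Ph p))) * φ (Ph p)) = _
    rw [Ps_Ph (ne_of_P hp), ← cj_mul (c := 1) (by norm_num), hF1, hF2]
    have := cj_ne (c := 1) (by norm_num) (ne_of_P hp)
    field_simp
    ring

end Pool.Agent.H807R3
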